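import Pool.Agent.Helper98.DISC.GoalsD

/-!
# Packet SP2: Fubini for the convex polygons through the point `1`
-/

open MeasureTheory Set Filter Topology
open scoped ENNReal

noncomputable section

namespace Pool.Agent.Helper5.DISC

open Pool.Agent.Helper98.DISC

theorem continuous_cr {X : Type*} [TopologicalSpace X] {f g h : X → ℂ} (hf : Continuous f)
    (hg : Continuous g) (hh : Continuous h) : Continuous fun x => cr (f x) (g x) (h x) := by
  unfold cr
  fun_prop

theorem continuous_dtn {X : Type*} [TopologicalSpace X] {f g : X → ℂ} (hf : Continuous f)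
    (hg : Continuous g) : Continuous fun x => dtn (f x) (g x) := by
  unfold dtn
  fun_prop

theorem chain_iff {ι : Type*} [LinearOrder ι] (a b : ℂ) (z : ι → ℂ) : Chain a b z ↔
    (∀ i, 0 < cr a (z i) b) ∧ (∀ i j, i < j → 0 < cr a (z i) (z j)) ∧
      (∀ i j, i < j → 0 < cr (z i) (z j) b) ∧
      ∀ i j k, i < j → j < k → 0 < cr (z i) (z j) (z k) :=
  ⟨fun h => ⟨h.ab, h.a2, h.b2, h.p3⟩, fun h => ⟨h.1, h.2.1, h.2.2.1, h.2.2.2⟩⟩

theorem isOpen_chain {ι : Type*} [Finite ι] [LinearOrder ι] {X : Type*} [TopologicalSpace X]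
    {f g : X → ℂ} {u : X → ι → ℂ} (hf : Continuous f) (hg : Continuous g) (hu : Continuous u) :
    IsOpen {x | Chain (f x) (g x) (u x)} := by
  have hui : ∀ i, Continuous fun x => u x i := fun i => (continuous_apply i).comp hu
  simp only [chain_iff, ofPred_and, ofPred_forall]
  refine IsOpen.inter ?_ (IsOpen.inter ?_ (IsOpen.inter ?_ ?_))
  · exact isOpen_iInter_of_finite fun i =>
      isOpen_lt continuous_const (continuous_cr hf (hui i) hg)
  · exact isOpen_iInter_of_finite fun i => isOpen_iInter_of_finite fun j =>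
      isOpen_iInter_of_finite fun _ => isOpen_lt continuous_const (continuous_cr hf (hui i) (hui j))
  · exact isOpen_iInter_of_finite fun i => isOpen_iInter_of_finite fun j =>
      isOpen_iInter_of_finite fun _ => isOpen_lt continuous_const (continuous_cr (hui i) (hui j) hg)
  · exact isOpen_iInter_of_finite fun i => isOpen_iInter_of_finite fun j =>
      isOpen_iInter_of_finite fun k => isOpen_iInter_of_finite fun _ =>
      isOpen_iInter_of_finite fun _ =>
        isOpen_lt continuous_const (continuous_cr (hui i) (hui j) (hui k))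

theorem isOpen_FL (ι : Type*) [Finite ι] [LinearOrder ι] :
    IsOpen {p : ℂ × (ι → ℂ) | p.2 ∈ FL ι p.1} := by
  have hui : ∀ i, Continuous fun x : ℂ × (ι → ℂ) => x.2 i :=
    fun i => (continuous_apply i).comp continuous_snd
  have e : IsOpen {p : ℂ × (ι → ℂ) | ∀ i, dtn p.1 (p.2 i) < 0} := by
    simp only [ofPred_forall]
    exact isOpen_iInter_of_finite fun i =>
      isOpen_lt (continuous_dtn continuous_fst (hui i)) continuous_const
  exact IsOpen.inter (isOpen_chain continuous_const continuous_fst continuous_snd) e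

theorem isOpen_FR (ι : Type*) [Finite ι] [LinearOrder ι] :
    IsOpen {p : ℂ × (ι → ℂ) | p.2 ∈ FR ι p.1} := by
  have hui : ∀ i, Continuous fun x : ℂ × (ι → ℂ) => x.2 i :=
    fun i => (continuous_apply i).comp continuous_snd
  have e : IsOpen {p : ℂ × (ι → ℂ) | ∀ i, dtn p.1 (p.2 i) < 0} := by
    simp only [ofPred_forall]
    exact isOpen_iInter_of_finite fun i =>
      isOpen_lt (continuous_dtn continuous_fst (hui i)) continuous_const
  exact IsOpen.inter (isOpen_chain continuous_fst continuous_const continuous_snd) e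

/-- **SP2.** -/
theorem sp2 (hDC : S_DC2) (hF : S_FUB) : S_SP2 := by
  intro ι _ _ j
  have e : {z : ι → ℂ | z ∈ TS ι ∧ ∀ i, i ≠ j → dtn (z j) (z i) < 0} =
      {z : ι → ℂ | z j ∈ Metric.ball (0 : ℂ) 1 ∧
        (z j, fun i : {i // i < j} => z i) ∈
          {p : ℂ × ({i // i < j} → ℂ) | p.2 ∈ FL {i // i < j} p.1} ∧
        (z j, fun i : {i // j < i} => z i) ∈
          {p : ℂ × ({i // j < i} → ℂ) | p.2 ∈ FR {i // j < i} p.1}} := by
    ext z
    simp only [mem_ofPred_eq, mem_ball_zero_iff]
    exact hDC.1 ι j z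
  rw [e, hF ι j (Metric.ball (0 : ℂ) 1) _ _ measurableSet_ball
    (isOpen_FL {i // i < j}).measurableSet (isOpen_FR {i // j < i}).measurableSet]
  refine setLIntegral_congr_fun measurableSet_ball fun w hw => ?_
  have hw' : ‖w‖ < 1 := by simpa using hw
  have h1 : {u : {i // i < j} → ℂ | (w, u) ∈ {p : ℂ × ({i // i < j} → ℂ) | p.2 ∈ FL {i // i < j} p.1}} =
      ES {i // i < j} 1 w (at1 w) := (hDC.2 {i // i < j} w hw').1
  have h2 : {u : {i // j < i} → ℂ | (w, u) ∈ {p : ℂ × ({i // j < i} → ℂ) | p.2 ∈ FR {i // j < i} p.1}} =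
      ES {i // j < i} w 1 (Real.pi - at1 w) := (hDC.2 {i // j < i} w hw').2
  rw [h1, h2]

end Pool.Agent.Helper5.DISC
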